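import Pool.Agent.W164.MO.Defs

set_option autoImplicit false

/-! MO-MA: the mass of the numbers without special prime factors. -/

namespace Pool.Agent.W583.MO

open Finset
open Pool.Agent.W164.MO
open Pool.Agent.H932R4.CMO (bw Bd)

/-! ### completely multiplicative functions -/

theorem cm_eq (w : ℕ → ℝ) (n : ℕ) :
    cm w n = ∏ p ∈ n.primeFactors, w p ^ n.factorization p := by
  unfold cm
  rw [Finset.prod_list_map_count]
  apply Finset.prod_congr rfl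
  intro p _
  rw [Nat.primeFactorsList_count_eq]

theorem cm_one (w : ℕ → ℝ) : cm w 1 = 1 := by
  unfold cm; simp

theorem cm_mul (w : ℕ → ℝ) {m n : ℕ} (hm : m ≠ 0) (hn : n ≠ 0) :
    cm w (m * n) = cm w m * cm w n := by
  unfold cm
  rw [((Nat.perm_primeFactorsList_mul hm hn).map w).prod_eq, List.map_append, List.prod_append]

theorem cm_prime (w : ℕ → ℝ) {p : ℕ} (hp : p.Prime) : cm w p = w p := by
  unfold cm
  rw [Nat.primeFactorsList_prime hp]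
  simp

theorem cm_nonneg (w : ℕ → ℝ) (n : ℕ) (h : ∀ p, p.Prime → p ∣ n → 0 ≤ w p) : 0 ≤ cm w n := by
  rw [cm_eq]
  apply Finset.prod_nonneg
  intro p hp
  exact pow_nonneg (h p (Nat.prime_of_mem_primeFactors hp) (Nat.dvd_of_mem_primeFactors hp)) _

theorem cm_mono (w w' : ℕ → ℝ) (n : ℕ) (h : ∀ p, p.Prime → p ∣ n → 0 ≤ w p ∧ w p ≤ w' p) :
    cm w n ≤ cm w' n := by
  rw [cm_eq, cm_eq]
  apply Finset.prod_le_prod
  · intro p hp
    exact pow_nonneg (h p (Nat.prime_of_mem_primeFactors hp) (Nat.dvd_of_mem_primeFactors hp)).1 _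
  · intro p hp
    have := h p (Nat.prime_of_mem_primeFactors hp) (Nat.dvd_of_mem_primeFactors hp)
    exact pow_le_pow_left₀ this.1 this.2 _

theorem cm_rpow (w : ℕ → ℝ) (κ : ℝ) (n : ℕ) (h : ∀ p, 0 ≤ w p) :
    cm (fun p => w p ^ κ) n = cm w n ^ κ := by
  rw [cm_eq, cm_eq, ← Real.finsetProd_rpow _ _ (fun p _ => pow_nonneg (h p) _)]
  apply Finset.prod_congr rfl
  intro p _
  rw [← Real.rpow_natCast (w p ^ κ), ← Real.rpow_natCast (w p), ← Real.rpow_mul (h p),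
    ← Real.rpow_mul (h p), mul_comm]

theorem cm_id (n : ℕ) (hn : n ≠ 0) : cm (fun p => (p : ℝ)) n = n := by
  have h1 := Nat.prod_primeFactorsList hn
  have h2 : ((n.primeFactorsList.prod : ℕ) : ℝ) =
      (n.primeFactorsList.map (Nat.cast : ℕ → ℝ)).prod := Nat.cast_list_prod _
  show (n.primeFactorsList.map (Nat.cast : ℕ → ℝ)).prod = n
  rw [← h2, h1]

/-! ### the weight of the system -/

theorem wt_nonneg (P₀ : ℕ) (κ₀ : ℝ) (S : Set ℕ) (p : ℕ) : 0 ≤ wt P₀ κ₀ S p := by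
  unfold wt
  split_ifs
  · exact Real.rpow_nonneg (Nat.cast_nonneg _) _
  · positivity
  · exact le_refl _

theorem sw_nonneg (ν : ℝ) (k₀ : ℕ) (Sp : Set ℕ) (q : ℕ → ℕ) (n : ℕ) : 0 ≤ sw ν k₀ Sp q n :=
  cm_nonneg _ _ (fun p _ _ => wt_nonneg _ _ _ p)

theorem sw_mul (ν : ℝ) (k₀ : ℕ) (Sp : Set ℕ) (q : ℕ → ℕ) {m n : ℕ} (hm : m ≠ 0) (hn : n ≠ 0) :
    sw ν k₀ Sp q (m * n) = sw ν k₀ Sp q m * sw ν k₀ Sp q n := cm_mul _ hm hn

open Classical in
/-- the special part of `n` -/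
noncomputable def spart (Sp : Set ℕ) (q : ℕ → ℕ) (n : ℕ) : ℝ :=
  cm (fun p => if p ∈ q '' Sp then (p : ℝ) else 1) n

theorem wt_le (k₀ : ℕ) (hk : 2 ≤ k₀) (κ₀ : ℝ) (S : Set ℕ) (p : ℕ) (hp : p ∉ S) :
    wt (2 ^ k₀) κ₀ S p ≤ 1 := by
  unfold wt
  rw [if_neg hp]
  split_ifs with h
  · have h4 : (4 : ℝ) ≤ p := by
      have : 2 ^ 2 ≤ 2 ^ k₀ := Nat.pow_le_pow_right (by norm_num) hk
      have h5 : 4 ≤ p := by omega
      exact_mod_cast h5
    have hlog : 1 ≤ Real.log p := by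
      rw [Real.le_log_iff_exp_le (by linarith)]
      have := Real.exp_one_lt_d9
      linarith
    rw [div_le_one (by positivity)]
    nlinarith
  · norm_num

theorem sw_le_spart (ν : ℝ) (k₀ : ℕ) (hk : 2 ≤ k₀) (Sp : Set ℕ) (q : ℕ → ℕ) (n : ℕ) :
    sw ν k₀ Sp q n ≤ spart Sp q n ^ (ν / 1000) := by
  classical
  unfold spart
  rw [← cm_rpow _ _ _ (fun p => by
    show 0 ≤ (if p ∈ q '' Sp then (p : ℝ) else 1)
    split_ifs
    · exact Nat.cast_nonneg _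
    · norm_num)]
  apply cm_mono
  intro p _ _
  refine ⟨wt_nonneg _ _ _ p, ?_⟩
  by_cases hpS : p ∈ q '' Sp
  · show wt _ _ _ p ≤ (if p ∈ q '' Sp then (p : ℝ) else 1) ^ (ν / 1000)
    unfold wt
    rw [if_pos hpS, if_pos hpS]
  · show wt _ _ _ p ≤ (if p ∈ q '' Sp then (p : ℝ) else 1) ^ (ν / 1000)
    rw [if_neg hpS, Real.one_rpow]
    exact wt_le k₀ hk _ _ p hpS

theorem one_le_spart (Sp : Set ℕ) (q : ℕ → ℕ) (n : ℕ) : 1 ≤ spart Sp q n := by
  classical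
  unfold spart
  rw [cm_eq]
  apply Finset.prod_induction _ (fun x : ℝ => 1 ≤ x)
    (fun a b ha hb => one_le_mul_of_one_le_of_one_le ha hb) le_rfl
  intro p hp
  apply one_le_pow₀
  show 1 ≤ (if p ∈ q '' Sp then (p : ℝ) else 1)
  split_ifs
  · exact_mod_cast (Nat.prime_of_mem_primeFactors hp).one_le
  · exact le_refl _

theorem spart_le (Sp : Set ℕ) (q : ℕ → ℕ) (n : ℕ) (hn : n ≠ 0) : spart Sp q n ≤ n := by
  classical
  have h1 : spart Sp q n ≤ cm (fun p => (p : ℝ)) n := by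
    unfold spart
    apply cm_mono
    intro p hp _
    have h2 : (1 : ℝ) ≤ p := by exact_mod_cast hp.one_le
    show 0 ≤ (if p ∈ q '' Sp then (p : ℝ) else 1) ∧ (if p ∈ q '' Sp then (p : ℝ) else 1) ≤ (p : ℝ)
    split_ifs
    · exact ⟨by linarith, le_refl _⟩
    · exact ⟨by norm_num, h2⟩
  rwa [cm_id n hn] at h1

theorem sw_le (ν : ℝ) (hν : 0 ≤ ν) (k₀ : ℕ) (hk : 2 ≤ k₀) (Sp : Set ℕ) (q : ℕ → ℕ) (n : ℕ)
    (hn : n ≠ 0) : sw ν k₀ Sp q n ≤ (n : ℝ) ^ (ν / 1000) :=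
  (sw_le_spart ν k₀ hk Sp q n).trans (Real.rpow_le_rpow
    (zero_le_one.trans (one_le_spart Sp q n)) (spart_le Sp q n hn) (by positivity))

theorem bw_nonneg (N₀ n : ℕ) : 0 ≤ bw N₀ n := by
  unfold bw
  split_ifs
  · apply Finset.prod_nonneg
    intro p _
    positivity
  · exact le_refl _

/-- without special prime factors the weight is the weight of the starting library -/
theorem sw_eq_bw (ν : ℝ) (k₀ : ℕ) (Sp : Set ℕ) (q : ℕ → ℕ) (n : ℕ) (hn : n ≠ 0)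
    (h : ∀ N ∈ Sp, (q N).Prime → ¬ q N ∣ n) : sw ν k₀ Sp q n = bw (2 ^ k₀) n := by
  classical
  unfold sw
  rw [cm_eq]
  have hval : ∀ p ∈ n.primeFactors, wt (2 ^ k₀) (ν / 1000) (q '' Sp) p =
      if 2 ^ k₀ ≤ p then 1 / (Real.log p) ^ 2 else 0 := by
    intro p hp
    have hpS : p ∉ q '' Sp := by
      rintro ⟨N, hN, rfl⟩
      exact h N hN (Nat.prime_of_mem_primeFactors hp) (Nat.dvd_of_mem_primeFactors hp)
    unfold wt
    rw [if_neg hpS]
  by_cases hall : ∀ p ∈ n.primeFactors, 2 ^ k₀ ≤ p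
  · unfold bw
    rw [if_pos ⟨hn, hall⟩]
    show _ = ∏ p ∈ n.factorization.support, _
    rw [Nat.support_factorization]
    apply Finset.prod_congr rfl
    intro p hp
    rw [hval p hp, if_pos (hall p hp)]
  · unfold bw
    rw [if_neg (fun h' => hall h'.2)]
    push Not at hall
    obtain ⟨p, hp, hlt⟩ := hall
    apply Finset.prod_eq_zero hp
    rw [hval p hp, if_neg (by omega)]
    apply zero_pow
    have := (Nat.prime_of_mem_primeFactors hp).factorization_pos_of_dvd hn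
      (Nat.dvd_of_mem_primeFactors hp)
    omega

/-! ### the block lengths -/

theorem ll_le (ν : ℝ) (hν : 0 ≤ ν) (k₁ k : ℕ) : ll ν k₁ k ≤ 2 * k / 3 := by
  unfold ll
  split_ifs
  · exact le_refl _
  · have h1 : (1 / 2 - ν / 1000) * (k : ℝ) ≤ (k : ℝ) / 2 := by
      have hk : (0 : ℝ) ≤ k := Nat.cast_nonneg k
      have : 0 ≤ ν / 1000 * (k : ℝ) := by positivity
      linarith
    have h2 : ⌊(1 / 2 - ν / 1000) * (k : ℝ)⌋₊ ≤ k / 2 := by
      rw [← Nat.floor_div_eq_div (K := ℝ)]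
      exact Nat.floor_le_floor (by simpa using h1)
    omega

theorem le_ll (ν : ℝ) (hν : ν ≤ 1) (k₁ k : ℕ) (hk : 8 ≤ k) : ((k : ℝ) + 1) / 4 ≤ ll ν k₁ k := by
  have hk' : (8 : ℝ) ≤ k := by exact_mod_cast hk
  unfold ll
  split_ifs
  · have : k + 1 ≤ 4 * (2 * k / 3) := by omega
    have h2 : ((k : ℝ) + 1) ≤ 4 * ((2 * k / 3 : ℕ) : ℝ) := by exact_mod_cast this
    linarith
  · have h1 : (1 / 2 - ν / 1000) * (k : ℝ) < ⌊(1 / 2 - ν / 1000) * (k : ℝ)⌋₊ + 1 :=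
      Nat.lt_floor_add_one _
    nlinarith

open Classical in
theorem ma (hML : S_ML) : S_MA := by
  obtain ⟨C, -, hML⟩ := hML
  intro c ν c₁ κ hc hc1 hν hνc hc₁ hκ
  obtain ⟨P₁, hP₁, H⟩ := hML (κ / 64) (by positivity)
  refine ⟨max P₁ 8, ?_⟩
  intro k₀ k₁ Od Sp q hk₀ hSys k j hk hj
  have hk8 : 8 ≤ k₀ := (le_max_right _ _).trans hk₀
  have hP : P₁ ≤ 2 ^ k₀ := by
    have h1 : P₁ ≤ k₀ := (le_max_left _ _).trans hk₀
    exact h1.trans (Nat.lt_two_pow_self).le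
  obtain ⟨l, hl⟩ : ∃ l, l = ll ν k₁ k := ⟨_, rfl⟩
  rw [← hl] at hj ⊢
  have hl1 : l ≤ 2 * k / 3 := by rw [hl]; exact ll_le ν hν.le k₁ k
  have hl2 : ((k : ℝ) + 1) / 4 ≤ l := by
    rw [hl]; exact le_ll ν (by linarith) k₁ k (by omega)
  rw [idx, Finset.mem_Ico] at hj
  have hkl : 2 ^ (k - l) * 2 ^ l = 2 ^ k := by
    rw [← pow_add]; congr 1; omega
  have hjl : 2 ^ k ≤ j * 2 ^ l := by
    rw [← hkl]; exact Nat.mul_le_mul_right _ hj.1
  have hju : (j + 1) * 2 ^ l ≤ 2 ^ (k + 1) := by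
    have h1 : j + 1 ≤ 2 ^ (k - l + 1) := hj.2
    calc (j + 1) * 2 ^ l ≤ 2 ^ (k - l + 1) * 2 ^ l := Nat.mul_le_mul_right _ h1
      _ = 2 ^ (k + 1) := by rw [← pow_add]; congr 1; omega
  obtain ⟨X, hX⟩ : ∃ X, X + 1 = j * 2 ^ l := by
    have : 0 < j * 2 ^ l := lt_of_lt_of_le (by positivity) hjl
    exact ⟨j * 2 ^ l - 1, by omega⟩
  have hpk0 : 2 * 2 ^ k₀ ≤ 2 ^ k := by
    calc 2 * 2 ^ k₀ = 2 ^ (k₀ + 1) := by ring
      _ ≤ 2 ^ k := Nat.pow_le_pow_right (by norm_num) hk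
  have hpk : 1 ≤ 2 ^ k₀ := Nat.one_le_two_pow
  have hXk : 2 ^ k₀ ≤ X := by omega
  have hblk : blk l j = Ioc X (X + 2 ^ l) := by
    ext n
    rw [blk, Finset.mem_Ico, Finset.mem_Ioc, add_mul, one_mul, ← hX]
    omega
  have hk1 : 2 ^ (k - 1) ≤ X := by
    have : 2 * 2 ^ (k - 1) = 2 ^ k := by rw [← pow_succ']; congr 1; omega
    have h2 : 1 ≤ 2 ^ (k - 1) := Nat.one_le_two_pow
    omega
  have hYX : 2 ^ l ≤ X := (Nat.pow_le_pow_right (by norm_num) (by omega)).trans hk1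
  have hXpos : (0 : ℝ) < X := by
    have : 0 < X := by omega
    exact_mod_cast this
  have hXY : (X : ℝ) ^ (1 / 4 : ℝ) ≤ ((2 ^ l : ℕ) : ℝ) := by
    have h1 : (X : ℝ) ≤ (2 : ℝ) ^ ((k : ℝ) + 1) := by
      have h2 : X ≤ 2 ^ (k + 1) := by
        have : 0 < 2 ^ l := by positivity
        nlinarith
      calc (X : ℝ) ≤ ((2 ^ (k + 1) : ℕ) : ℝ) := by exact_mod_cast h2
        _ = (2 : ℝ) ^ ((k : ℝ) + 1) := by
          push_cast
          rw [← Real.rpow_natCast]; push_cast; rfl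
    calc (X : ℝ) ^ (1 / 4 : ℝ) ≤ ((2 : ℝ) ^ ((k : ℝ) + 1)) ^ (1 / 4 : ℝ) :=
          Real.rpow_le_rpow hXpos.le h1 (by norm_num)
      _ = (2 : ℝ) ^ (((k : ℝ) + 1) / 4) := by
          rw [← Real.rpow_mul (by norm_num)]; congr 1; ring
      _ ≤ (2 : ℝ) ^ (l : ℝ) := Real.rpow_le_rpow_of_exponent_le (by norm_num) hl2
      _ = ((2 ^ l : ℕ) : ℝ) := by rw [Real.rpow_natCast]; push_cast; rfl
  have key := (H (2 ^ k₀) hP X (2 ^ l) hXk hXY hYX).1
  have hk' : (8 : ℝ) ≤ k := by exact_mod_cast (by omega : 8 ≤ k)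
  have hlog : (k : ℝ) / 4 ≤ Real.log X := by
    have h1 : Real.log ((2 : ℝ) ^ (k - 1)) ≤ Real.log X := by
      apply Real.log_le_log (by positivity)
      exact_mod_cast hk1
    rw [Real.log_pow] at h1
    have h2 : ((k - 1 : ℕ) : ℝ) = (k : ℝ) - 1 := by
      rw [Nat.cast_sub (by omega)]; simp
    rw [h2] at h1
    have h3 := Real.log_two_gt_d9
    nlinarith
  calc ∑ n ∈ (blk l j).filter (fun n => ¬ n.Prime ∧ ∀ N ∈ Sp, ¬ q N ∣ n), sw ν k₀ Sp q n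
      = ∑ n ∈ (blk l j).filter (fun n => ¬ n.Prime ∧ ∀ N ∈ Sp, ¬ q N ∣ n), bw (2 ^ k₀) n := by
        apply Finset.sum_congr rfl
        intro n hn
        rw [Finset.mem_filter] at hn
        apply sw_eq_bw
        · intro h0
          have := hn.1
          rw [h0, hblk, Finset.mem_Ioc] at this
          omega
        · intro N hN _
          exact hn.2.2 N hN
    _ ≤ ∑ n ∈ (Ioc X (X + 2 ^ l)).filter (fun n : ℕ => ¬ n.Prime), bw (2 ^ k₀) n := by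
        apply Finset.sum_le_sum_of_subset_of_nonneg
        · intro n hn
          rw [Finset.mem_filter] at hn ⊢
          rw [← hblk]
          exact ⟨hn.1, hn.2.1⟩
        · intro n _ _
          exact bw_nonneg _ _
    _ ≤ κ / 64 * ((2 ^ l : ℕ) : ℝ) / (Real.log X) ^ 3 := key
    _ ≤ κ * 2 ^ l / (k : ℝ) ^ 3 := by
        have hlog0 : 0 < Real.log X := by linarith
        have h1 : (k : ℝ) ^ 3 / 64 ≤ (Real.log X) ^ 3 := by
          calc (k : ℝ) ^ 3 / 64 = ((k : ℝ) / 4) ^ 3 := by ring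
            _ ≤ (Real.log X) ^ 3 := pow_le_pow_left₀ (by positivity) hlog 3
        rw [div_le_div_iff₀ (by positivity) (by positivity)]
        push_cast
        have h2 : 0 ≤ κ * (2 : ℝ) ^ l := by positivity
        nlinarith

end Pool.Agent.W583.MO
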